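import Mathlib

/-!
# The DP color function bound is never sharp for all `k`

For every finite graph `G`, `f(G, 2) ≤ P_DP(G, χ_DP(G) + 1) ^ 2 - 1`.
-/

set_option autoImplicit false

namespace Pool.Agent.Results.MP_924496_co.NeverSharp

/-- `(L, H)` with `L v = {x | p x = v}` is an `m`-fold cover of `G`: every `L v` is a clique of `H`
with `m` elements, the edges of `H` between different `L u`, `L v` form a matching, and there are
none if `u`, `v` are not adjacent in `G`. -/
structure IsFoldCover {V W : Type} (G : SimpleGraph V) (m : ℕ) (H : SimpleGraph W)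
    (p : W → V) : Prop where
  clique : ∀ x y, x ≠ y → p x = p y → H.Adj x y
  matching : ∀ x y z, p x ≠ p y → p y = p z → H.Adj x y → H.Adj x z → y = z
  edge : ∀ x y, H.Adj x y → p x ≠ p y → G.Adj (p x) (p y)
  fold : ∀ v, {x | p x = v}.ncard = m

/-- The colorings given by a cover graph `H` of a graph on `V`: the independent sets of `H` of
size `|V|`. -/
def colorings (V : Type) {W : Type} (H : SimpleGraph W) : Set (Set W) :=
  {I | H.IsIndepSet I ∧ I.ncard = Nat.card V}

/-- Every `m`-fold cover of `G` (with finitely many elements) has a coloring. -/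
def DPColorable {V : Type} (G : SimpleGraph V) (m : ℕ) : Prop :=
  ∀ (W : Type) [Finite W] (H : SimpleGraph W) (p : W → V), IsFoldCover G m H p →
    (colorings V H).Nonempty

/-- The DP-chromatic number `χ_DP(G)`. -/
noncomputable def dpChromaticNumber {V : Type} (G : SimpleGraph V) : ℕ :=
  sInf {m | DPColorable G m}

/-- The DP color function `P_DP(G, m)`: the least number of colorings of an `m`-fold cover. -/
noncomputable def dpColorFunction {V : Type} (G : SimpleGraph V) (m : ℕ) : ℕ :=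
  sInf {n | ∃ (W : Type) (_ : Finite W) (H : SimpleGraph W) (p : W → V),
    IsFoldCover G m H p ∧ (colorings V H).ncard = n}

/-- `f(G, k)`: the least `t` with `χ_DP(G □ K_{k,t}) = χ_DP(G) + k`. -/
noncomputable def f {V : Type} (G : SimpleGraph V) (k : ℕ) : ℕ :=
  sInf {t | dpChromaticNumber (SimpleGraph.boxProd G (completeBipartiteGraph (Fin k) (Fin t))) =
    dpChromaticNumber G + k}

section Basics

variable {V W : Type} {G : SimpleGraph V} {m : ℕ} {H : SimpleGraph W} {p : W → V}

/-- A coloring as a choice of one element over every vertex. -/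
def IsSection (H : SimpleGraph W) (p : W → V) (s : V → W) : Prop :=
  (∀ v, p (s v) = v) ∧ ∀ u v, ¬ H.Adj (s u) (s v)

theorem IsSection.injective {s : V → W} (hs : IsSection H p s) : Function.Injective s := by
  intro u v h
  rw [← hs.1 u, ← hs.1 v, h]

theorem range_mem [Finite V] {s : V → W} (hs : IsSection H p s) :
    Set.range s ∈ colorings V H := by
  constructor
  · rintro _ ⟨u, rfl⟩ _ ⟨v, rfl⟩ _
    exact hs.2 u v
  · rw [← Set.image_univ, Set.ncard_image_of_injective _ hs.injective, Set.ncard_univ]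

theorem exists_section [Finite V] [Finite W] (hc : IsFoldCover G m H p) {I : Set W}
    (hI : I ∈ colorings V H) : ∃ s, IsSection H p s ∧ Set.range s = I := by
  have hinj : Set.InjOn p I := by
    intro x hx y hy hxy
    by_contra hne
    exact hI.1 hx hy hne (hc.clique x y hne hxy)
  have himg : p '' I = Set.univ := by
    apply Set.eq_of_subset_of_ncard_le (Set.subset_univ _)
    rw [hinj.ncard_image, hI.2, Set.ncard_univ]
  have hex : ∀ v, ∃ x ∈ I, p x = v := by
    intro v
    have : v ∈ p '' I := by rw [himg]; trivial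
    exact this
  choose s hsI hsp using hex
  refine ⟨s, ⟨hsp, ?_⟩, ?_⟩
  · intro u v hadj
    exact hI.1 (hsI u) (hsI v) hadj.ne hadj
  · apply Set.Subset.antisymm
    · rintro _ ⟨v, rfl⟩; exact hsI v
    · intro x hx
      exact ⟨p x, hinj (hsI _) hx (hsp _)⟩

theorem ncard_colorings [Finite V] [Finite W] (hc : IsFoldCover G m H p) :
    (colorings V H).ncard = Nat.card {s : V → W // IsSection H p s} := by
  have : colorings V H = Set.range (fun s : {s : V → W // IsSection H p s} => Set.range s.1) := by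
    apply Set.Subset.antisymm
    · intro I hI
      obtain ⟨s, hs, rfl⟩ := exists_section hc hI
      exact ⟨⟨s, hs⟩, rfl⟩
    · rintro _ ⟨s, rfl⟩
      exact range_mem s.2
  rw [this, ← Set.image_univ, Set.ncard_image_of_injective, Set.ncard_univ]
  intro s t hst
  apply Subtype.ext
  funext v
  have h1 : s.1 v ∈ Set.range t.1 := by
    have : s.1 v ∈ Set.range s.1 := ⟨v, rfl⟩
    rw [show Set.range s.1 = Set.range t.1 from hst] at this
    exact this
  obtain ⟨u, hu⟩ := h1
  have h2 : u = v := by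
    rw [← t.2.1 u, hu, s.2.1 v]
  rw [← hu, h2]

/-- Choose a coloring of a copy of `G` inside a covered graph from sublists of size `m`. -/
theorem choose_section {V' : Type} [Finite V] [Finite W] {G' : SimpleGraph V'} {m' : ℕ}
    {q : W → V'} (hG : DPColorable G m) (hc : IsFoldCover G' m' H q) (e : V → V')
    (he : Function.Injective e) (hadj : ∀ u v, G'.Adj (e u) (e v) → G.Adj u v)
    (S : V → Set W) (hS : ∀ v, ∀ x ∈ S v, q x = e v) (hcard : ∀ v, m ≤ (S v).ncard) :
    ∃ s : V → W, (∀ v, s v ∈ S v) ∧ ∀ u v, ¬ H.Adj (s u) (s v) := by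
  choose T hT1 hT2 using fun v => Set.exists_subset_card_eq (hcard v)
  -- the elements of the small lists
  let X : Type := Σ v : V, T v
  have hcov : IsFoldCover G m (H.comap (fun x : X => x.2.1)) (fun x : X => x.1) := by
    refine ⟨?_, ?_, ?_, ?_⟩
    · rintro ⟨u, x⟩ ⟨v, y⟩ hne huv
      simp only at huv
      subst huv
      have hxy : x.1 ≠ y.1 := fun h => hne (by rw [Subtype.ext h])
      exact hc.clique _ _ hxy ((hS u _ (hT1 u x.2)).trans (hS u _ (hT1 u y.2)).symm)
    · rintro ⟨u, x⟩ ⟨v, y⟩ ⟨w, z⟩ huv hvw h1 h2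
      simp only at huv hvw
      subst hvw
      have hq1 := hS u _ (hT1 u x.2)
      have hq2 := hS v _ (hT1 v y.2)
      have hq3 := hS v _ (hT1 v z.2)
      have := hc.matching x.1 y.1 z.1 (by rw [hq1, hq2]; exact fun h => huv (he h))
        (by rw [hq2, hq3]) h1 h2
      rw [Subtype.ext this]
    · rintro ⟨u, x⟩ ⟨v, y⟩ h huv
      simp only at huv
      have hq1 := hS u _ (hT1 u x.2)
      have hq2 := hS v _ (hT1 v y.2)
      have := hc.edge x.1 y.1 h (by rw [hq1, hq2]; exact fun h => huv (he h))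
      rw [hq1, hq2] at this
      exact hadj u v this
    · intro v
      have : {x : X | x.1 = v} = Set.range (fun y : T v => (⟨v, y⟩ : X)) := by
        ext ⟨u, x⟩
        constructor
        · intro h
          have h' : u = v := h
          subst h'
          exact ⟨x, rfl⟩
        · rintro ⟨y, hy⟩
          exact (congrArg Sigma.fst hy).symm
      have hinj : Function.Injective (fun y : T v => (⟨v, y⟩ : X)) :=
        fun a b h => eq_of_heq (Sigma.mk.inj_iff.1 h).2
      rw [this, ← Set.image_univ, Set.ncard_image_of_injective _ hinj, Set.ncard_univ, ← hT2 v]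
      rfl
  obtain ⟨I, hI⟩ := hG X _ _ hcov
  obtain ⟨s, hs, -⟩ := exists_section hcov hI
  have hs1 : ∀ v, (s v).1 = v := hs.1
  refine ⟨fun v => (s v).2.1, fun v => ?_, fun u v => hs.2 u v⟩
  have h1 := hT1 (s v).1 (s v).2.2
  have h2 : S (s v).1 = S v := congrArg S (hs1 v)
  rw [h2] at h1
  exact h1

theorem DPColorable.mono [Finite V] {m m' : ℕ} (hG : DPColorable G m) (h : m ≤ m') :
    DPColorable G m' := by
  intro W _ H p hc
  obtain ⟨s, hs1, hs2⟩ := choose_section hG hc id Function.injective_id (fun u v h => h)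
    (fun v => {x | p x = v}) (fun v x hx => hx) (fun v => by rw [hc.fold v]; exact h)
  exact ⟨_, range_mem ⟨hs1, hs2⟩⟩

/-- Every graph on `V` is DP-colorable with `|V|` colours. -/
theorem dpColorable_card [Finite V] (G : SimpleGraph V) : DPColorable G (Nat.card V) := by
  classical
  intro W _ H p hc
  -- a maximum independent set
  obtain ⟨I, hI, hmax⟩ := Set.exists_max_image {I : Set W | H.IsIndepSet I} Set.ncard
    (Set.toFinite _) ⟨∅, by simp⟩
  refine ⟨I, hI, ?_⟩
  have hinj : Set.InjOn p I := by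
    intro x hx y hy hxy
    by_contra hne
    exact hI hx hy hne (hc.clique x y hne hxy)
  have hle : I.ncard ≤ Nat.card V := by
    rw [← hinj.ncard_image, ← Set.ncard_univ V]
    exact Set.ncard_le_ncard (Set.subset_univ _)
  by_contra hne
  have hlt : I.ncard < Nat.card V := lt_of_le_of_ne hle hne
  obtain ⟨v, hv⟩ : ∃ v, v ∉ p '' I := by
    by_contra hcon
    push Not at hcon
    have : p '' I = Set.univ := Set.eq_univ_of_forall hcon
    have h2 := congrArg Set.ncard this
    rw [hinj.ncard_image, Set.ncard_univ] at h2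
    omega
  -- some element over `v` is not adjacent to `I`
  obtain ⟨y, hyv, hy⟩ : ∃ y, p y = v ∧ ∀ x ∈ I, ¬ H.Adj x y := by
    by_contra hcon
    push Not at hcon
    choose g hgI hg using hcon
    have h1 : ({y | p y = v} : Set W).ncard ≤ I.ncard := by
      apply Set.ncard_le_ncard_of_injOn (fun y => if h : p y = v then g y h else y)
      · intro y hy
        have hy' : p y = v := hy
        simp only [dif_pos hy']
        exact hgI y hy'
      · intro y hy z hz hyz
        have hy' : p y = v := hy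
        have hz' : p z = v := hz
        simp only [dif_pos hy', dif_pos hz'] at hyz
        have h1 := hg y hy'
        have h2 := hg z hz'
        rw [← hyz] at h2
        refine hc.matching _ y z ?_ (hy'.trans hz'.symm) h1 h2
        rw [hy']
        intro h
        exact hv ⟨_, hgI y hy', h⟩
    rw [hc.fold v] at h1
    omega
  have hyI : y ∉ I := fun h => hv ⟨y, h, hyv⟩
  have h2 := hmax (insert y I) (by
    intro a ha b hb hab
    rcases ha with rfl | ha <;> rcases hb with rfl | hb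
    · exact absurd rfl hab
    · exact fun h => hy b hb h.symm
    · exact hy a ha
    · exact hI ha hb hab)
  rw [Set.ncard_insert_of_notMem hyI] at h2
  omega

theorem dpColorable_dp [Finite V] (G : SimpleGraph V) : DPColorable G (dpChromaticNumber G) :=
  Nat.sInf_mem (s := {m | DPColorable G m}) ⟨_, dpColorable_card G⟩

theorem dp_le_iff [Finite V] (G : SimpleGraph V) (m : ℕ) :
    dpChromaticNumber G ≤ m ↔ DPColorable G m :=
  ⟨fun h => (dpColorable_dp G).mono h, fun h => Nat.sInf_le h⟩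

theorem dp_pos [Finite V] [Nonempty V] (G : SimpleGraph V) : 0 < dpChromaticNumber G := by
  by_contra h
  have h0 : DPColorable G 0 := (dp_le_iff G 0).1 (by omega)
  obtain ⟨I, hI⟩ := h0 Empty ⊥ Empty.elim ⟨fun x => x.elim, fun x => x.elim, fun x => x.elim,
    fun v => by
      rw [Set.ncard_eq_zero]
      exact Set.eq_empty_of_isEmpty _⟩
  have h1 := hI.2
  rw [Set.eq_empty_of_isEmpty I, Set.ncard_empty] at h1
  have h2 : 0 < Nat.card V := Nat.card_pos
  omega

end Basics

section Upper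

variable {V : Type} [Finite V] (G : SimpleGraph V)

/-- `χ_DP(G □ K_{2,t}) ≤ χ_DP(G) + 2`. -/
theorem upper (t : ℕ) : DPColorable
    (SimpleGraph.boxProd G (completeBipartiteGraph (Fin 2) (Fin t))) (dpChromaticNumber G + 2) := by
  intro W _ H p hc
  have hG := dpColorable_dp G
  have hinl : ∀ i : Fin 2, ∃ s : V → W, (∀ v, s v ∈ {x | p x = (v, Sum.inl i)}) ∧
      ∀ u v, ¬ H.Adj (s u) (s v) := by
    intro i
    refine choose_section hG hc (fun v => (v, Sum.inl i)) (fun u v h => (Prod.ext_iff.1 h).1) ?_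
      (fun v => {x | p x = (v, Sum.inl i)}) (fun v x hx => hx) (fun v => ?_)
    · intro u v h
      rw [SimpleGraph.boxProd_adj] at h
      rcases h with h | h
      · exact h.1
      · exact absurd h.1 (by simp)
    · rw [hc.fold]; omega
  choose s hs1 hs2 using hinl
  have hinr : ∀ j : Fin t, ∃ r : V → W, (∀ v, r v ∈ {x | p x = (v, Sum.inr j) ∧
      ∀ i, ¬ H.Adj (s i v) x}) ∧ ∀ u v, ¬ H.Adj (r u) (r v) := by
    intro j
    refine choose_section hG hc (fun v => (v, Sum.inr j)) (fun u v h => (Prod.ext_iff.1 h).1) ?_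
      (fun v => {x | p x = (v, Sum.inr j) ∧ ∀ i, ¬ H.Adj (s i v) x}) (fun v x hx => hx.1)
      (fun v => ?_)
    · intro u v h
      rw [SimpleGraph.boxProd_adj] at h
      rcases h with h | h
      · exact h.1
      · exact absurd h.1 (by simp)
    · have hsub : {x | p x = (v, Sum.inr j)} ⊆
          {x | p x = (v, Sum.inr j) ∧ ∀ i, ¬ H.Adj (s i v) x} ∪
            ⋃ i : Fin 2, {x | p x = (v, Sum.inr j) ∧ H.Adj (s i v) x} := by
        intro x hx
        by_cases h : ∀ i, ¬ H.Adj (s i v) x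
        · exact Or.inl ⟨hx, h⟩
        · push Not at h
          obtain ⟨i, hi⟩ := h
          exact Or.inr (Set.mem_iUnion.2 ⟨i, hx, hi⟩)
      have h1 := Set.ncard_le_ncard hsub
      rw [hc.fold] at h1
      have h2 : ∀ i : Fin 2, {x | p x = (v, Sum.inr j) ∧ H.Adj (s i v) x}.ncard ≤ 1 := by
        intro i
        rw [Set.ncard_le_one]
        intro x hx y hy
        refine hc.matching (s i v) x y ?_ (hx.1.trans hy.1.symm) hx.2 hy.2
        have h3 : p (s i v) = (v, Sum.inl i) := hs1 i v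
        rw [h3, hx.1]
        simp
      have h3 : (⋃ i : Fin 2, {x | p x = (v, Sum.inr j) ∧ H.Adj (s i v) x}).ncard ≤ 2 := by
        have h4 : (⋃ i : Fin 2, {x | p x = (v, Sum.inr j) ∧ H.Adj (s i v) x}) =
            {x | p x = (v, Sum.inr j) ∧ H.Adj (s 0 v) x} ∪
              {x | p x = (v, Sum.inr j) ∧ H.Adj (s 1 v) x} := by
          ext x
          rw [Set.mem_iUnion, Set.mem_union]
          constructor
          · rintro ⟨i, hi⟩
            fin_cases i
            · exact Or.inl hi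
            · exact Or.inr hi
          · rintro (h | h)
            · exact ⟨0, h⟩
            · exact ⟨1, h⟩
        rw [h4]
        have := Set.ncard_union_le {x | p x = (v, Sum.inr j) ∧ H.Adj (s 0 v) x}
          {x | p x = (v, Sum.inr j) ∧ H.Adj (s 1 v) x}
        have := h2 0
        have := h2 1
        omega
      have h5 := Set.ncard_union_le {x | p x = (v, Sum.inr j) ∧ ∀ i, ¬ H.Adj (s i v) x}
        (⋃ i : Fin 2, {x | p x = (v, Sum.inr j) ∧ H.Adj (s i v) x})
      omega
  choose r hr1 hr2 using hinr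
  have key : ∀ a b : V × (Fin 2 ⊕ Fin t), ∀ x y, p x = a → p y = b → a ≠ b → H.Adj x y →
      (SimpleGraph.boxProd G (completeBipartiteGraph (Fin 2) (Fin t))).Adj a b := by
    rintro a b x y rfl rfl hab h
    exact hc.edge x y h hab
  refine ⟨_, range_mem (s := fun a : V × (Fin 2 ⊕ Fin t) =>
    Sum.elim (fun i => s i a.1) (fun j => r j a.1) a.2) (p := p) ⟨?_, ?_⟩⟩
  · rintro ⟨v, i | j⟩
    · exact hs1 i v
    · exact (hr1 j v).1
  · rintro ⟨u, i | j⟩ ⟨v, i' | j'⟩ h
    · by_cases hi : i = i'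
      · subst hi; exact hs2 i u v h
      · have := key _ _ _ _ (hs1 i u) (hs1 i' v) (by
          intro h; exact hi (Sum.inl_injective (Prod.ext_iff.1 h).2)) h
        rw [SimpleGraph.boxProd_adj] at this
        rcases this with h | h
        · exact hi (Sum.inl_injective h.2)
        · exact absurd h.1 (by simp)
    · have := key _ _ _ _ (hs1 i u) (hr1 j' v).1 (by simp) h
      rw [SimpleGraph.boxProd_adj] at this
      rcases this with h' | h'
      · exact absurd h'.2 (by simp)
      · have h2 : u = v := h'.2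
        subst h2
        exact (hr1 j' u).2 i h
    · have := key _ _ _ _ (hr1 j u).1 (hs1 i' v) (by simp) h
      rw [SimpleGraph.boxProd_adj] at this
      rcases this with h' | h'
      · exact absurd h'.2 (by simp)
      · have h2 : u = v := h'.2
        subst h2
        exact (hr1 j u).2 i' h.symm
    · by_cases hj : j = j'
      · subst hj; exact hr2 j u v h
      · have := key _ _ _ _ (hr1 j u).1 (hr1 j' v).1 (by
          intro h; exact hj (Sum.inr_injective (Prod.ext_iff.1 h).2)) h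
        rw [SimpleGraph.boxProd_adj] at this
        rcases this with h | h
        · exact hj (Sum.inr_injective h.2)
        · exact absurd h.1 (by simp)

end Upper

section Lower

variable {V W B : Type} {t : ℕ}

/-- Adjacency inside the list structure of one copy of `G` on the `Y` side. -/
def adjY (HB : SimpleGraph B) (pB : B → V) : (V × Fin 2) ⊕ B → (V × Fin 2) ⊕ B → Prop
  | Sum.inl x, Sum.inl y => x.1 = y.1 ∧ x.2 ≠ y.2
  | Sum.inl x, Sum.inr b => x.1 = pB b
  | Sum.inr b, Sum.inl x => x.1 = pB b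
  | Sum.inr b, Sum.inr b' => HB.Adj b b'

/-- The cover graph of `G □ K_{2,t}` without colorings. -/
def bigGraph (H : SimpleGraph W) (p : W → V) (HB : SimpleGraph B) (pB : B → V)
    (R : Fin t → Fin 2 → W → Fin 2 → Prop) :
    SimpleGraph ((Fin 2 × W) ⊕ (Fin t × ((V × Fin 2) ⊕ B))) where
  Adj
    | Sum.inl x, Sum.inl y => x.1 = y.1 ∧ H.Adj x.2 y.2
    | Sum.inr x, Sum.inr y => x.1 = y.1 ∧ adjY HB pB x.2 y.2
    | Sum.inl x, Sum.inr (j, Sum.inl y) => p x.2 = y.1 ∧ R j x.1 x.2 y.2
    | Sum.inr (j, Sum.inl y), Sum.inl x => p x.2 = y.1 ∧ R j x.1 x.2 y.2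
    | Sum.inl _, Sum.inr (_, Sum.inr _) => False
    | Sum.inr (_, Sum.inr _), Sum.inl _ => False
  symm := ⟨by
    rintro (⟨i, x⟩ | ⟨j, ⟨u, a⟩ | b⟩) (⟨i', x'⟩ | ⟨j', ⟨u', a'⟩ | b'⟩) h
    · exact ⟨h.1.symm, h.2.symm⟩
    · exact h
    · exact h
    · exact h
    · exact ⟨h.1.symm, h.2.1.symm, h.2.2.symm⟩
    · exact ⟨h.1.symm, h.2⟩
    · exact h
    · exact ⟨h.1.symm, h.2⟩
    · exact ⟨h.1.symm, h.2.symm⟩⟩
  loopless := ⟨by
    rintro (⟨i, x⟩ | ⟨j, ⟨u, a⟩ | b⟩) h
    · exact h.2.ne rfl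
    · exact h.2.2 rfl
    · exact h.2.ne rfl⟩

/-- The projection of the cover. -/
def bigProj (p : W → V) (pB : B → V) :
    ((Fin 2 × W) ⊕ (Fin t × ((V × Fin 2) ⊕ B))) → V × (Fin 2 ⊕ Fin t)
  | Sum.inl x => (p x.2, Sum.inl x.1)
  | Sum.inr (j, Sum.inl y) => (y.1, Sum.inr j)
  | Sum.inr (j, Sum.inr b) => (pB b, Sum.inr j)

variable {G : SimpleGraph V} {m : ℕ} {H : SimpleGraph W} {p : W → V} {HB : SimpleGraph B}
  {pB : B → V} {R : Fin t → Fin 2 → W → Fin 2 → Prop}

theorem bigCover [Finite V] [Finite W] [Finite B] (hH : IsFoldCover G (m + 2) H p)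
    (hB : IsFoldCover G m HB pB)
    (hRa : ∀ j i x a b, R j i x a → R j i x b → a = b)
    (hRb : ∀ j i x y a, p x = p y → R j i x a → R j i y a → x = y) :
    IsFoldCover (SimpleGraph.boxProd G (completeBipartiteGraph (Fin 2) (Fin t))) (m + 2)
      (bigGraph H p HB pB R) (bigProj p pB) := by
  refine ⟨?_, ?_, ?_, ?_⟩
  · rintro (⟨i, x⟩ | ⟨j, ⟨u, a⟩ | b⟩) (⟨i', x'⟩ | ⟨j', ⟨u', a'⟩ | b'⟩) hne h
    all_goals simp only [bigProj, Prod.mk.injEq, Sum.inl.injEq, Sum.inr.injEq, reduceCtorEq,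
      and_false] at h
    · obtain ⟨h1, rfl⟩ := h
      exact ⟨rfl, hH.clique _ _ (fun h => hne (by
        have h' : x = x' := h
        rw [h'])) h1⟩
    · obtain ⟨rfl, rfl⟩ := h
      exact ⟨rfl, rfl, fun h => hne (by simp only at h; rw [h])⟩
    · obtain ⟨rfl, rfl⟩ := h
      exact ⟨rfl, rfl⟩
    · obtain ⟨rfl, rfl⟩ := h
      exact ⟨rfl, rfl⟩
    · obtain ⟨h1, rfl⟩ := h
      exact ⟨rfl, hB.clique _ _ (fun h => hne (by rw [h])) h1⟩
  · rintro (⟨i, x⟩ | ⟨j, ⟨u, a⟩ | b⟩) (⟨i', x'⟩ | ⟨j', ⟨u', a'⟩ | b'⟩)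
      (⟨i'', x''⟩ | ⟨j'', ⟨u'', a''⟩ | b''⟩) hne h h1 h2
    all_goals simp only [bigProj, Prod.mk.injEq, Sum.inl.injEq, Sum.inr.injEq, reduceCtorEq,
      and_false, bigGraph, adjY, ne_eq, not_and] at h h1 h2 hne
    · obtain ⟨rfl, h1⟩ := h1
      obtain ⟨rfl, h2⟩ := h2
      rw [hH.matching x x' x'' (fun h => hne h rfl) h.1 h1 h2]
    · obtain ⟨rfl, rfl⟩ := h
      rw [hRa _ _ _ _ _ h1.2 h2.2]
    · obtain ⟨h3, rfl⟩ := h
      rw [hRb _ _ _ _ _ h3 h1.2 h2.2]
    · exact absurd h1.1 (hne h1.2.1)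
    · exact absurd h1.1 (hne h1.2.1)
    · exact absurd h1.1 (hne h1.2)
    · exact absurd h1.1 (hne h1.2)
    · exact absurd h1.1 (hne h1.2.symm)
    · exact absurd h1.1 (hne h1.2.symm)
    · exact absurd h2.1 (fun h4 => hne (h2.2.symm.trans h.1.symm) (h4.trans h.2.symm))
    · obtain ⟨rfl, h1⟩ := h1
      obtain ⟨rfl, h2⟩ := h2
      rw [hB.matching b b' b'' (fun h => hne h rfl) h.1 h1 h2]
  · rintro (⟨i, x⟩ | ⟨j, ⟨u, a⟩ | b⟩) (⟨i', x'⟩ | ⟨j', ⟨u', a'⟩ | b'⟩) h hne
    all_goals simp only [bigProj, Prod.mk.injEq, Sum.inl.injEq, Sum.inr.injEq, reduceCtorEq,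
      and_false, bigGraph, adjY, ne_eq, not_and, SimpleGraph.boxProd_adj] at h hne ⊢
    · obtain ⟨rfl, h⟩ := h
      exact Or.inl ⟨hH.edge _ _ h (fun h => hne h rfl), rfl⟩
    · exact Or.inr ⟨by simp, h.1⟩
    · exact Or.inr ⟨by simp, h.1.symm⟩
    · exact absurd h.1 (hne h.2.1)
    · exact absurd h.1 (hne h.2)
    · exact absurd h.1 (hne h.2.symm)
    · obtain ⟨rfl, h⟩ := h
      exact Or.inl ⟨hB.edge _ _ h (fun h => hne h rfl), rfl⟩
  · rintro ⟨v, i | j⟩
    · have h1 : {x : (Fin 2 × W) ⊕ (Fin t × ((V × Fin 2) ⊕ B)) |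
          bigProj p pB x = (v, Sum.inl i)} = (fun w : W => Sum.inl (i, w)) '' {w | p w = v} := by
        ext x
        rcases x with ⟨i', x⟩ | ⟨j, ⟨u, a⟩ | b⟩
        all_goals simp [bigProj]
        tauto
      rw [h1, Set.ncard_image_of_injective _ (fun a b h => by simpa using h), hH.fold]
    · have h1 : {x : (Fin 2 × W) ⊕ (Fin t × ((V × Fin 2) ⊕ B)) |
          bigProj p pB x = (v, Sum.inr j)} =
          ((fun a : Fin 2 => Sum.inr (j, Sum.inl (v, a))) '' Set.univ) ∪
          ((fun b : B => Sum.inr (j, Sum.inr b)) '' {b | pB b = v}) := by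
        ext x
        rcases x with ⟨i', x⟩ | ⟨j, ⟨u, a⟩ | b⟩
        all_goals simp [bigProj]
        all_goals tauto
      rw [h1, Set.ncard_union_eq, Set.ncard_image_of_injective _ (fun a b h => by simpa using h),
        Set.ncard_image_of_injective _ (fun a b h => by simpa using h), hB.fold, Set.ncard_univ]
      · simp [add_comm]
      · rw [Set.disjoint_left]
        rintro _ ⟨a, -, rfl⟩ ⟨b, -, hb⟩
        simp at hb

theorem lower [Finite V] [Finite W] [Finite B] (hH : IsFoldCover G (m + 2) H p)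
    (hB : IsFoldCover G m HB pB) (hBnone : ¬ (colorings V HB).Nonempty)
    (hRa : ∀ j i x a b, R j i x a → R j i x b → a = b)
    (hRb : ∀ j i x y a, p x = p y → R j i x a → R j i y a → x = y)
    (hkill : ∀ ψ : Fin 2 → V → W, (∀ i, IsSection H p (ψ i)) →
      ∃ j, ∀ v a, ∃ i, R j i (ψ i v) a) :
    ¬ DPColorable (SimpleGraph.boxProd G (completeBipartiteGraph (Fin 2) (Fin t))) (m + 2) := by
  intro hcol
  have hcov := bigCover (R := R) hH hB hRa hRb
  obtain ⟨I, hI⟩ := hcol _ _ _ hcov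
  obtain ⟨s, hs, -⟩ := exists_section hcov hI
  -- the colorings of the two copies of the `X` side
  have hx : ∀ (i : Fin 2) (v : V), ∃ x : W, s (v, Sum.inl i) = Sum.inl (i, x) ∧ p x = v := by
    intro i v
    have h := hs.1 (v, Sum.inl i)
    rcases hsv : s (v, Sum.inl i) with ⟨i', x⟩ | ⟨j, ⟨u, a⟩ | b⟩
    · rw [hsv] at h
      simp only [bigProj, Prod.mk.injEq, Sum.inl.injEq] at h
      exact ⟨x, by rw [h.2], h.1⟩
    · rw [hsv] at h
      simp [bigProj] at h
    · rw [hsv] at h
      simp [bigProj] at h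
  choose ψ hψ1 hψ2 using hx
  have hψ : ∀ i, IsSection H p (ψ i) := by
    intro i
    refine ⟨hψ2 i, fun u v h => ?_⟩
    have h1 := hs.2 (u, Sum.inl i) (v, Sum.inl i)
    rw [hψ1, hψ1] at h1
    exact h1 ⟨rfl, h⟩
  obtain ⟨j, hj⟩ := hkill ψ hψ
  have hy : ∀ v : V, ∃ b : B, s (v, Sum.inr j) = Sum.inr (j, Sum.inr b) ∧ pB b = v := by
    intro v
    have h := hs.1 (v, Sum.inr j)
    rcases hsv : s (v, Sum.inr j) with ⟨i', x⟩ | ⟨j', ⟨u, a⟩ | b⟩
    · rw [hsv] at h
      simp [bigProj] at h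
    · rw [hsv] at h
      simp only [bigProj, Prod.mk.injEq, Sum.inr.injEq] at h
      obtain ⟨rfl, rfl⟩ := h
      obtain ⟨i, hi⟩ := hj u a
      have h1 := hs.2 (u, Sum.inl i) (u, Sum.inr j')
      rw [hψ1, hsv] at h1
      exact absurd ⟨hψ2 i u, hi⟩ h1
    · rw [hsv] at h
      simp only [bigProj, Prod.mk.injEq, Sum.inr.injEq] at h
      exact ⟨b, by rw [h.2], h.1⟩
  choose β hβ1 hβ2 using hy
  apply hBnone
  refine ⟨_, range_mem (s := β) (p := pB) ⟨hβ2, fun u v h => ?_⟩⟩
  have h1 := hs.2 (u, Sum.inr j) (v, Sum.inr j)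
  rw [hβ1, hβ1] at h1
  exact h1 ⟨rfl, h⟩

end Lower

section Main

variable {V : Type} [Finite V] [Nonempty V]

theorem f_two_lt (G : SimpleGraph V) :
    f G 2 < (dpColorFunction G (dpChromaticNumber G + 2 - 1)) ^ 2 := by
  classical
  obtain ⟨m, hm⟩ : ∃ m, dpChromaticNumber G = m + 1 :=
    ⟨dpChromaticNumber G - 1, by have := dp_pos G; omega⟩
  have hsub : dpChromaticNumber G + 2 - 1 = m + 2 := by omega
  rw [hsub]
  -- an uncolorable cover with `m` colours
  have hBex : ¬ DPColorable G m := by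
    rw [← dp_le_iff]; omega
  unfold DPColorable at hBex
  push Not at hBex
  obtain ⟨B, _, HB, pB, hB, hBnone⟩ := hBex
  -- a cover with `m + 2` colours and the least number of colorings
  have hne : {n | ∃ (W : Type) (_ : Finite W) (H : SimpleGraph W) (p : W → V),
      IsFoldCover G (m + 2) H p ∧ (colorings V H).ncard = n}.Nonempty := by
    refine ⟨_, V × Fin (m + 2), inferInstance,
      { Adj := fun x y => x.1 = y.1 ∧ x.2 ≠ y.2
        symm := ⟨fun x y h => ⟨h.1.symm, h.2.symm⟩⟩
        loopless := ⟨fun x h => h.2 rfl⟩ }, Prod.fst, ⟨?_, ?_, ?_, ?_⟩, rfl⟩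
    · rintro ⟨u, a⟩ ⟨v, b⟩ h huv
      simp only at huv
      subst huv
      exact ⟨rfl, fun h' => h (by simp only at h'; rw [h'])⟩
    · intro x y z hxy _ h _
      exact absurd h.1 hxy
    · intro x y h hxy
      exact absurd h.1 hxy
    · intro v
      have : {x : V × Fin (m + 2) | x.1 = v} = (fun a => (v, a)) '' Set.univ := by
        ext ⟨u, a⟩
        simp [eq_comm]
      rw [this, Set.ncard_image_of_injective _ (fun a b h => by simpa using h), Set.ncard_univ]
      simp
  obtain ⟨W, _, H, p, hH, hP⟩ := Nat.sInf_mem hne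
  change (colorings V H).ncard = dpColorFunction G (m + 2) at hP
  rw [ncard_colorings hH] at hP
  set Sec := {s : V → W // IsSection H p s} with hSec
  -- two disjoint colorings
  obtain ⟨s1, hs1⟩ : ∃ s, IsSection H p s := by
    have h1 : DPColorable G (m + 2) := (dp_le_iff G _).1 (by omega)
    obtain ⟨I, hI⟩ := h1 W H p hH
    obtain ⟨s, hs, -⟩ := exists_section hH hI
    exact ⟨s, hs⟩
  obtain ⟨s2, hs2, hs2'⟩ := choose_section (dpColorable_dp G) hH id Function.injective_id
    (fun u v h => h) (fun v => {x | p x = v} \ {s1 v}) (fun v x hx => hx.1) (fun v => by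
      have hmem : s1 v ∈ {x | p x = v} := hs1.1 v
      rw [Set.ncard_sdiff_singleton_of_mem hmem, hH.fold v]; omega)
  have hs2 : IsSection H p s2 ∧ ∀ v, s2 v ≠ s1 v :=
    ⟨⟨fun v => (hs2 v).1, hs2'⟩, fun v h => (hs2 v).2 h⟩
  let φ1 : Sec := ⟨s1, hs1⟩
  let φ2 : Sec := ⟨s2, hs2.1⟩
  obtain ⟨v0⟩ := ‹Nonempty V›
  have hφ : (φ1, φ2) ≠ (φ2, φ1) := by
    intro h
    have h1 : φ1 = φ2 := (Prod.ext_iff.1 h).1
    exact hs2.2 v0 (congrFun (congrArg Subtype.val h1) v0).symm
  let J := {q : Sec × Sec // q ≠ (φ2, φ1)}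
  have hJ : Nat.card J = Nat.card Sec ^ 2 - 1 := by
    have h1 : Nat.card J = ({q : Sec × Sec | q ≠ (φ2, φ1)}).ncard := rfl
    rw [h1]
    have h2 : {q : Sec × Sec | q ≠ (φ2, φ1)} = Set.univ \ {(φ2, φ1)} := by
      ext q; simp
    rw [h2, Set.ncard_sdiff_singleton_of_mem (Set.mem_univ _), Set.ncard_univ, Nat.card_prod,
      sq]
  have hpos : 0 < Nat.card Sec := Nat.card_pos_iff.2 ⟨⟨φ1⟩, inferInstance⟩
  have hle : f G 2 ≤ Nat.card Sec ^ 2 - 1 := by
    apply Nat.sInf_le
    rw [← hJ]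
    change dpChromaticNumber
      (SimpleGraph.boxProd G (completeBipartiteGraph (Fin 2) (Fin (Nat.card J)))) = _
    have e : J ≃ Fin (Nat.card J) := Finite.equivFin J
    apply le_antisymm ((dp_le_iff _ _).2 (upper G _))
    by_contra hlt
    have hcol : DPColorable (SimpleGraph.boxProd G
        (completeBipartiteGraph (Fin 2) (Fin (Nat.card J)))) (m + 2) :=
      (dp_le_iff _ _).1 (by omega)
    refine lower (R := fun j i x a =>
      if (e.symm j).1 = (φ1, φ2) then (a = 0 ∧ x = s1 (p x)) ∨ (a = 1 ∧ x = s2 (p x))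
      else (i = 0 ∧ a = 0 ∧ x = (e.symm j).1.1.1 (p x)) ∨
        (i = 1 ∧ a = 1 ∧ x = (e.symm j).1.2.1 (p x))) hH hB
      (Set.not_nonempty_iff_eq_empty.2 hBnone) ?_ ?_ ?_ hcol
    · intro j i x a b h1 h2
      split_ifs at h1 h2 with hc
      · rcases h1 with ⟨rfl, h1⟩ | ⟨rfl, h1⟩ <;> rcases h2 with ⟨rfl, h2⟩ | ⟨rfl, h2⟩
        · rfl
        · exact absurd (h2.symm.trans h1) (hs2.2 _)
        · exact absurd (h1.symm.trans h2) (hs2.2 _)
        · rfl
      · rcases h1 with ⟨rfl, rfl, h1⟩ | ⟨rfl, rfl, h1⟩ <;>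
          rcases h2 with ⟨h3, rfl, h2⟩ | ⟨h3, rfl, h2⟩
        · rfl
        · exact absurd h3 (by decide)
        · exact absurd h3 (by decide)
        · rfl
    · intro j i x y a hxy h1 h2
      split_ifs at h1 h2 with hc
      · rcases h1 with ⟨rfl, h1⟩ | ⟨rfl, h1⟩ <;> rcases h2 with ⟨h3, h2⟩ | ⟨h3, h2⟩
        · rw [h1, h2, hxy]
        · exact absurd h3 (by decide)
        · exact absurd h3 (by decide)
        · rw [h1, h2, hxy]
      · rcases h1 with ⟨rfl, rfl, h1⟩ | ⟨rfl, rfl, h1⟩ <;>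
          rcases h2 with ⟨h3, h4, h2⟩ | ⟨h3, h4, h2⟩
        · rw [h1, h2, hxy]
        · exact absurd h3 (by decide)
        · exact absurd h3 (by decide)
        · rw [h1, h2, hxy]
    · intro ψ hψ
      let q : Sec × Sec := (⟨ψ 0, hψ 0⟩, ⟨ψ 1, hψ 1⟩)
      by_cases hq : q = (φ2, φ1)
      · have h0 : ψ 0 = s2 := congrArg Subtype.val (Prod.ext_iff.1 hq).1
        have h1 : ψ 1 = s1 := congrArg Subtype.val (Prod.ext_iff.1 hq).2
        refine ⟨e ⟨(φ1, φ2), hφ⟩, fun v a => ?_⟩
        rw [Equiv.symm_apply_apply]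
        have ha : a = 0 ∨ a = 1 := by fin_cases a <;> simp
        rcases ha with rfl | rfl
        · refine ⟨1, ?_⟩
          rw [if_pos rfl, h1]
          exact Or.inl ⟨rfl, by rw [hs1.1]⟩
        · refine ⟨0, ?_⟩
          rw [if_pos rfl, h0]
          exact Or.inr ⟨rfl, by rw [hs2.1.1]⟩
      · refine ⟨e ⟨q, hq⟩, fun v a => ?_⟩
        rw [Equiv.symm_apply_apply]
        have ha : a = 0 ∨ a = 1 := by fin_cases a <;> simp
        by_cases hq' : q = (φ1, φ2)
        · have h0 : ψ 0 = s1 := congrArg Subtype.val (Prod.ext_iff.1 hq').1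
          have h1 : ψ 1 = s2 := congrArg Subtype.val (Prod.ext_iff.1 hq').2
          rcases ha with rfl | rfl
          · refine ⟨0, ?_⟩
            rw [if_pos hq', h0]
            exact Or.inl ⟨rfl, by rw [hs1.1]⟩
          · refine ⟨1, ?_⟩
            rw [if_pos hq', h1]
            exact Or.inr ⟨rfl, by rw [hs2.1.1]⟩
        · rcases ha with rfl | rfl
          · refine ⟨0, ?_⟩
            rw [if_neg hq']
            exact Or.inl ⟨rfl, rfl, by rw [(hψ 0).1]⟩
          · refine ⟨1, ?_⟩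
            rw [if_neg hq']
            exact Or.inr ⟨rfl, rfl, by rw [(hψ 1).1]⟩
  rw [← hP]
  have h2 : 0 < Nat.card Sec ^ 2 := pow_pos hpos 2
  omega

end Main

/-- **Answer: no.** No finite graph `G` satisfies `f(G, k) = P_DP(G, χ_DP(G) + k - 1) ^ k` for
every positive integer `k`. -/
theorem result : ¬ ∃ (V : Type) (_ : Finite V) (_ : Nonempty V) (G : SimpleGraph V),
    ∀ k : ℕ, 1 ≤ k → f G k = (dpColorFunction G (dpChromaticNumber G + k - 1)) ^ k := by
  rintro ⟨V, _, _, G, h⟩
  exact (f_two_lt G).ne (h 2 (by norm_num))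

end Pool.Agent.Results.MP_924496_co.NeverSharp
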